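import Pool.Agent.H72.Fit3

set_option autoImplicit false
set_option linter.unusedVariables false
set_option linter.unusedSimpArgs false
set_option linter.unnecessarySeqFocus false

namespace Pool.Agent.Results.MP_15f3fd_al.Fitt

open MvPolynomial Pool.Agent.H72.Fit

/-- Non-edges `{i, j}`, written with `i < j`. -/
abbrev NonEdge {n : ℕ} (Γ : SimpleGraph (Fin n)) : Type :=
  {p : Fin n × Fin n // p.1 < p.2 ∧ ¬ Γ.Adj p.1 p.2}

/-- Triples `a < b < c`. -/
abbrev Triple (n : ℕ) : Type := {t : Fin n × Fin n × Fin n // t.1 < t.2.1 ∧ t.2.1 < t.2.2}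

/-- The presentation matrix of the Koszul module: the coefficient of `e_i ∧ e_j` in
`δ₃ (e_a ∧ e_b ∧ e_c) = x_c e_a ∧ e_b - x_b e_a ∧ e_c + x_a e_b ∧ e_c`. -/
noncomputable def pres (k : Type) [Field k] {n : ℕ} (Γ : SimpleGraph (Fin n)) :
    Matrix (NonEdge Γ) (Triple n) (MvPolynomial (Fin n) k) :=
  Matrix.of fun p t => (if p.1 = (t.1.1, t.1.2.1) then X t.1.2.2 else 0) -
    (if p.1 = (t.1.1, t.1.2.2) then X t.1.2.1 else 0) + (if p.1 = (t.1.2.1, t.1.2.2) then X t.1.1 else 0)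

open Classical in
/-- The zeroth Fitting ideal: the ideal of maximal minors. -/
noncomputable def fitt (k : Type) [Field k] {n : ℕ} (Γ : SimpleGraph (Fin n)) :
    Ideal (MvPolynomial (Fin n) k) :=
  Ideal.span {d | ∃ f : NonEdge Γ → Triple n, Function.Injective f ∧
    d = ((pres k Γ).submatrix id f).det}

/-- The ideal generated by the monomials `m_T` of the spanning trees. -/
noncomputable def treeIdeal (k : Type) [Field k] {n : ℕ} (Γ : SimpleGraph (Fin n)) :
    Ideal (MvPolynomial (Fin n) k) :=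
  Ideal.span {d | ∃ T ≤ Γ, T.IsTree ∧ d = ∏ i, X i ^ ((T.neighborSet i).ncard - 1)}

/-- The ideal generated by the variables. -/
noncomputable def maxId (k : Type) [Field k] (n : ℕ) : Ideal (MvPolynomial (Fin n) k) :=
  Ideal.span (Set.range X)

theorem J {k : Type} [Field k] [CharZero k] {σ : Type} (c : ℤ) (y : MvPolynomial σ k) :
    ((c.natAbs ^ 2 : ℕ) : Ideal (MvPolynomial σ k)) * Ideal.span {y} = Ideal.span {y * c} := by
  by_cases h : c = 0
  · simp [h]
  · rw [Ideal.natCast_eq_top (by simpa using h), Ideal.top_mul, Ideal.span_singleton_mul_right_unit]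
    rw [← map_intCast (C : k →+* MvPolynomial σ k)]
    exact (IsUnit.mk0 _ (Int.cast_ne_zero.2 h)).map C

open Classical in
theorem fitt_eq (k : Type) [Field k] {m : ℕ} (hm : 2 ≤ m) (Γ : SimpleGraph (Fin (m + 1))) :
    ∑ f : NE Γ.Adj → T3 m, Ideal.span {((MX Γ.Adj X).submatrix id f).det} = fitt k Γ := by
  have key : ∀ (p : NonEdge Γ) (t : Triple (m + 1)), KM X p.1 t.1 = pres k Γ p t := fun p t => by
    rw [KM, ep_lt p.2.1 t.2.1, ep_lt p.2.1 (t.2.1.trans t.2.2), ep_lt p.2.1 t.2.2]; rfl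
  rw [Ideal.sum_eq_sup]
  apply le_antisymm
  · refine Finset.sup_le fun f _ => (Ideal.span_singleton_le_iff_mem _).2 ?_
    choose τ u hu using sorted (X : Fin (m + 1) → MvPolynomial (Fin (m + 1)) k)
      (i := ⟨0, by omega⟩) (j := ⟨1, by omega⟩) (l := ⟨2, by omega⟩) (Fin.mk_lt_mk.2 one_pos)
      (Fin.mk_lt_mk.2 one_lt_two)
    have : (MX Γ.Adj X).submatrix id f =
        Matrix.of fun i j => u (f j) * ((pres k Γ).submatrix id fun r => τ (f r)) i j := by
      ext1 i j; exact (hu _ _).trans (congrArg _ (key _ _))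
    rw [this, Matrix.det_mul_row]
    refine Ideal.mul_mem_left _ _ ?_
    by_cases h : Function.Injective fun r => τ (f r)
    · exact Ideal.subset_span ⟨_, h, rfl⟩
    · obtain ⟨r, s, e, hn⟩ := Function.not_injective_iff.1 h
      rw [Matrix.det_zero_of_column_eq hn fun i => by simp [e]]
      exact zero_mem _
  · rw [fitt, Ideal.span_le]
    rintro _ ⟨f, -, rfl⟩
    refine Finset.le_sup (f := fun f : NE Γ.Adj → T3 m => Ideal.span
      {((MX Γ.Adj (X : _ → MvPolynomial (Fin (m + 1)) k)).submatrix id f).det})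
      (Finset.mem_univ fun r => (f r).1) (Ideal.subset_span ?_)
    refine congrArg Matrix.det ?_
    ext1 i j; exact (key _ _).symm

open Classical in
theorem tree_eq (k : Type) [Field k] [CharZero k] {m : ℕ} (hm : 2 ≤ m) (Γ : SimpleGraph (Fin (m + 1))) :
    ∑ g : Fin m → ED Γ.Adj, Ideal.span {(∏ r, X (g r).1.1 * X (g r).1.2 : MvPolynomial (Fin (m + 1)) k) *
      cW Γ.Adj g} = Ideal.span {∏ a, X a} * treeIdeal k Γ := by
  have : Nontrivial (Fin (m + 1)) := Fin.nontrivial_iff_two_le.2 (by omega)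
  have key : ∀ T : SimpleGraph (Fin (m + 1)), T.IsTree → (∏ v, X v ^ (T.neighborSet v).ncard :
      MvPolynomial (Fin (m + 1)) k) = (∏ a, X a) * ∏ i, X i ^ ((T.neighborSet i).ncard - 1) := by
    intro T hT
    rw [← Finset.prod_mul_distrib]
    refine Finset.prod_congr rfl fun v _ => ?_
    obtain ⟨w, hw⟩ := hT.connected.preconnected.exists_adj_of_nontrivial v
    have : 0 < (T.neighborSet v).ncard := (Set.ncard_pos (Set.toFinite _)).2 ⟨w, hw⟩
    rw [← pow_succ', Nat.sub_add_cancel this]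
  rw [Ideal.sum_eq_sup]
  apply le_antisymm
  · refine Finset.sup_le fun g _ => (Ideal.span_singleton_le_iff_mem _).2 ?_
    by_cases h : cW Γ.Adj g = 0
    · simp [h]
    · obtain ⟨T, h1, h2, h3, h4⟩ := tree_of Γ h
      rw [deg X h3 h4, key T h2]
      exact Ideal.mul_mem_right _ _ (Ideal.mul_mem_mul (Ideal.subset_span rfl)
        (Ideal.subset_span ⟨T, h1, h2, rfl⟩))
  · rw [treeIdeal, Ideal.span_mul_span', Ideal.span_le]
    rintro _ ⟨_, rfl, _, ⟨T, h1, h2, rfl⟩, rfl⟩
    obtain ⟨g, h3, h4⟩ := enum_of Γ h1 h2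
    refine Finset.le_sup (f := fun g : Fin m → ED Γ.Adj => Ideal.span
      {(∏ r, X (g r).1.1 * X (g r).1.2 : MvPolynomial (Fin (m + 1)) k) * cW Γ.Adj g})
      (Finset.mem_univ g) ?_
    beta_reduce
    rw [← J, Ideal.natCast_eq_top (by simpa using (conn h3).2 h2.connected), Ideal.top_mul, deg X h3 h4,
      key T h2]
    exact Ideal.subset_span rfl

theorem result (k : Type) [Field k] [CharZero k] (n : ℕ) (hn : 3 ≤ n) (Γ : SimpleGraph (Fin n))
    (hE : n - 2 ≤ Nat.card (NonEdge Γ)) :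
    fitt k Γ = treeIdeal k Γ * maxId k n ^ (Nat.card (NonEdge Γ) + 2 - n) := by
  classical
  obtain ⟨m, rfl⟩ : ∃ m, n = m + 1 := ⟨n - 1, by omega⟩
  have h := main2 Γ.Adj (fun a => Ideal.span {(X a : MvPolynomial (Fin (m + 1)) k)})
    (Nat.card (NonEdge Γ) + 2 - (m + 1)) (by
      rw [← Nat.card_eq_fintype_card, show Nat.card (NE Γ.Adj) = Nat.card (NonEdge Γ) from rfl]; omega)
  have e : ∑ a, Ideal.span {(X a : MvPolynomial (Fin (m + 1)) k)} = maxId k (m + 1) := by
    rw [maxId, Ideal.span_range_eq_iSup, Ideal.sum_eq_sup, Finset.sup_univ_eq_iSup]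
  simp only [LH, RH, Ideal.span_singleton_mul_span_singleton, Ideal.prod_span_singleton, J, e,
    ← det_MX] at h
  simp only [← Ideal.span_singleton_mul_span_singleton (r := ∏ p : NE Γ.Adj, _), ← Finset.mul_sum] at h
  rw [fitt_eq k (by omega), tree_eq k (by omega), Ideal.natCast_eq_top (Nat.factorial_ne_zero _),
    Ideal.natCast_eq_top (by positivity), Ideal.top_mul, Ideal.top_mul] at h
  have n1 : (∏ a, X a : MvPolynomial (Fin (m + 1)) k) ≠ 0 :=
    Finset.prod_ne_zero_iff.2 fun a _ => X_ne_zero a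
  have n2 : (∏ p : NE Γ.Adj, X p.1.1 * X p.1.2 : MvPolynomial (Fin (m + 1)) k) ≠ 0 :=
    Finset.prod_ne_zero_iff.2 fun a _ => mul_ne_zero (X_ne_zero _) (X_ne_zero _)
  rw [← Ideal.span_singleton_mul_right_inj n2, ← Ideal.span_singleton_mul_right_inj n1, h]
  ring

end Pool.Agent.Results.MP_15f3fd_al.Fitt
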